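import Mathlib
import Pool.Agent.TH21.PN.Fam

/-!
# First case of `X ^ (q r) + Y ^ (p r) + Z ^ (p q) = 0` for fixed `q, r` and almost all `p`

Solutions of the generalised Fermat equation `a x ^ P + b y ^ Q = c z ^ R` with `a = b = 1`,
`c = -1` and `(P, Q, R) = (q r, p r, p q)`.
-/

set_option autoImplicit false

namespace Pool.Agent.Results.MP_be1fae_nt.FirstCasePairFamilies

/-- There are no pairwise coprime integers `X, Y, Z` with `X ^ (q r) + Y ^ (p r) + Z ^ (p q) = 0`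
such that `X` is prime to `p`, `Y` is prime to `q` and `Z` is prime to `r`. -/
def NoFirstCase (p q r : ℕ) : Prop :=
  ∀ X Y Z : ℤ, IsCoprime X Y → IsCoprime X Z → IsCoprime Y Z →
    IsCoprime X (p : ℤ) → IsCoprime Y (q : ℤ) → IsCoprime Z (r : ℤ) →
    X ^ (q * r) + Y ^ (p * r) + Z ^ (p * q) ≠ 0

/-- The first list of pairs `(q, r)`. -/
def pairsA : List (ℕ × ℕ) :=
  [(37, 149), (59, 241), (101, 409), (107, 349), (107, 367), (127, 419), (149, 181), (151, 311),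
  (157, 389), (157, 467), (167, 409), (179, 211), (179, 499), (211, 359), (227, 457), (239, 271),
  (257, 307), (263, 487), (313, 347), (433, 491), (449, 457), (467, 487)]

/-- The second list of pairs `(q, r)`. -/
def pairsB : List (ℕ × ℕ) :=
  [(7, 17), (11, 73), (19, 59), (23, 31), (23, 67), (29, 61), (29, 79), (31, 41), (31, 59),
  (37, 53), (41, 43), (41, 61), (59, 67), (73, 83)]

theorem result :
    (∀ q r p : ℕ, (q, r) ∈ pairsA → Odd p → 1 < p → Nat.Coprime p q → Nat.Coprime p r →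
      ¬ p ≡ 1 [MOD 2 * (q * r) + 1] → ¬ p + 1 ≡ 0 [MOD 2 * (q * r) + 1] → NoFirstCase p q r) ∧
    ∀ q r p : ℕ, (q, r) ∈ pairsB → Odd p → 1 < p → Nat.Coprime p q → Nat.Coprime p r →
      ¬ p ≡ 1 [MOD 2 * (q * r)] → ¬ p ≡ 1 [MOD 2 * (q * r) + 1] →
      ¬ p + 1 ≡ 0 [MOD 2 * (q * r) + 1] → NoFirstCase p q r := by
  have conv : ∀ p q r : ℕ, Pool.Agent.TH21.PN.NoFirst p q r → NoFirstCase p q r :=
    fun p q r h X Y Z h1 h2 h3 h4 h5 h6 h7 => h X Y Z h1 h2 h3 h7 h4 h5 h6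
  have eA : ∀ q r : ℕ, (q, r) ∈ pairsA →
      Pool.Agent.TH21.PN.isPair Pool.Agent.TH21.PN.famA q r := by
    have h : ∀ a ∈ pairsA, ∃ e ∈ Pool.Agent.TH21.PN.famA, (e.1, e.2.1) = a := by decide
    intro q r hqr
    obtain ⟨e, he, h2⟩ := h _ hqr
    exact ⟨e, he, congrArg Prod.fst h2, congrArg Prod.snd h2⟩
  have eB : ∀ q r : ℕ, (q, r) ∈ pairsB →
      Pool.Agent.TH21.PN.isPair Pool.Agent.TH21.PN.famB q r := by
    have h : ∀ a ∈ pairsB, ∃ e ∈ Pool.Agent.TH21.PN.famB, (e.1, e.2.1) = a := by decide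
    intro q r hqr
    obtain ⟨e, he, h2⟩ := h _ hqr
    exact ⟨e, he, congrArg Prod.fst h2, congrArg Prod.snd h2⟩
  have hp2 : ∀ m p : ℕ, 1 ≤ m → ¬ p ≡ 1 [MOD m + 1] → p % (m + 1) ≠ 1 := by
    intro m p hm h h2
    exact h (by unfold Nat.ModEq; rw [h2, Nat.mod_eq_of_lt (by omega)])
  have hp3 : ∀ m p : ℕ, 1 ≤ m → ¬ p + 1 ≡ 0 [MOD m + 1] → p % (m + 1) ≠ m := by
    intro m p hm h h2
    apply h
    unfold Nat.ModEq
    rw [Nat.add_mod, h2, Nat.mod_eq_of_lt (show 1 < m + 1 by omega), Nat.mod_self, Nat.zero_mod]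
  have posA : ∀ q r : ℕ, (q, r) ∈ pairsA → 1 ≤ q * r := by
    have h : ∀ a ∈ pairsA, 1 ≤ a.1 * a.2 := by decide
    intro q r hqr; exact h _ hqr
  have posB : ∀ q r : ℕ, (q, r) ∈ pairsB → 1 ≤ q * r := by
    have h : ∀ a ∈ pairsB, 1 ≤ a.1 * a.2 := by decide
    intro q r hqr; exact h _ hqr
  refine ⟨fun q r p hqr hp hp1 hpq hpr h1 h2 => conv _ _ _ ?_,
    fun q r p hqr hp hp1 hpq hpr h0 h1 h2 => conv _ _ _ ?_⟩
  · have := posA q r hqr
    exact Pool.Agent.TH21.PN.famA_thm (eA q r hqr) hp hp1 hpq hpr (hp2 _ _ (by omega) h1)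
      (hp3 _ _ (by omega) h2)
  · have h3 := posB q r hqr
    refine Pool.Agent.TH21.PN.famB_thm (eB q r hqr) hp hp1 hpq hpr ?_ (hp2 _ _ (by omega) h1)
      (hp3 _ _ (by omega) h2)
    intro h4
    apply h0
    unfold Nat.ModEq
    rw [h4, Nat.mod_eq_of_lt (by omega)]

end Pool.Agent.Results.MP_be1fae_nt.FirstCasePairFamilies
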