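import Mathlib
import Pool.Agent.TH21.PN.Final

/-!
# First case of `X ^ (q r) + Y ^ (p r) + Z ^ (p q) = 0`

Solutions of the generalised Fermat equation `a x ^ P + b y ^ Q = c z ^ R` with `a = b = 1`,
`c = -1` and `(P, Q, R) = (q r, p r, p q)` for three different primes `p, q, r`.
-/

set_option autoImplicit false

namespace Pool.Agent.Results.MP_be1fae_nt.FirstCasePrimeTriples

/-- There are no pairwise coprime integers `X, Y, Z` with `X ^ (q r) + Y ^ (p r) + Z ^ (p q) = 0`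
such that `X` is prime to `p`, `Y` is prime to `q` and `Z` is prime to `r`. -/
def NoFirstCase (p q r : ℕ) : Prop :=
  ∀ X Y Z : ℤ, IsCoprime X Y → IsCoprime X Z → IsCoprime Y Z →
    IsCoprime X (p : ℤ) → IsCoprime Y (q : ℤ) → IsCoprime Z (r : ℤ) →
    X ^ (q * r) + Y ^ (p * r) + Z ^ (p * q) ≠ 0

theorem result :
    (∀ p q r : ℕ, p.Prime → q.Prime → r.Prime → 5 ≤ p → 5 ≤ q → 5 ≤ r → p ≤ 61 → q ≤ 61 →
      r ≤ 61 → p ≠ q → p ≠ r → q ≠ r → NoFirstCase p q r) ∧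
    ∀ q r : ℕ, q.Prime → r.Prime → 11 ≤ q → 11 ≤ r → q ≤ 61 → r ≤ 61 → q ≠ r →
      {p : ℕ | p.Prime ∧ NoFirstCase p q r}.Infinite := by
  have conv : ∀ p q r : ℕ, Pool.Agent.TH21.PN.NoFirst p q r → NoFirstCase p q r :=
    fun p q r h X Y Z h1 h2 h3 h4 h5 h6 h7 => h X Y Z h1 h2 h3 h7 h4 h5 h6
  refine ⟨fun p q r hp hq hr hp5 hq5 hr5 hp61 hq61 hr61 hpq hpr hqr =>
    conv _ _ _ (Pool.Agent.TH21.PN.table p q r hp hq hr hp5 hq5 hr5 hp61 hq61 hr61 hpq hpr hqr),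
    fun q r hq hr hq11 hr11 hq61 hr61 hqr => ?_⟩
  refine Set.infinite_of_forall_exists_gt fun B => ?_
  obtain ⟨p, h1, h2, h3⟩ := Pool.Agent.TH21.PN.pairs q r hq hr hq11 hr11 hq61 hr61 hqr B
  exact ⟨p, ⟨h2, conv _ _ _ h3⟩, h1⟩

end Pool.Agent.Results.MP_be1fae_nt.FirstCasePrimeTriples
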