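import Mathlib
import Pool.Agent.Q158.RR
import Pool.Agent.Results.MP_be1fae_nt.WindowsWithoutSolutions

/-!
# No solutions of the generalised Fermat equation with S-unit coefficients and bases of random size

A solution `a x ^ p + b y ^ q = c z ^ r` with coefficients composed of primes of `S` is called reduced if no prime of `S`
divides `x y z` and `|x|`, `|y|`, `|z|` are `1` or no perfect powers; every solution becomes reduced if the primes of `S`
in the bases are moved to the coefficients and perfect powers to the exponents (which become larger).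

Let `1 / 3 < s < 1`. There are numbers `R_S` such that for integers `N` given by digits or by multiples of a random real
number (in the sense of `RandomReals s`), for all finite sets `S` and all `k` there is no reduced `S`-solution with two
exponents `≥ R_S` and `||x y z| - N| ≤ k`. For `s > 0` and `2 ∉ S` the same holds with `max (|x|, |y|, |z|)` instead of
`|x y z|`.
-/

set_option autoImplicit false

open Finset

namespace Pool.Agent.Results.MP_be1fae_nt.RandomBases

open AllSolutionsByBases (Solution TwoLarge ByBases ByProduct Bases)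
open WindowsWithoutSolutions (Reduced Val card_val)

/-- there is no reduced `S`-solution with at least two exponents `≥ R` for which `|x y z|` differs from `N` by at
most `k` -/
def NoProduct (S : Finset ℕ) (R k N : ℕ) : Prop :=
  ∀ (a b c x y z : ℤ) (p q r : ℕ), Reduced S R a b c x y z p q r →
    (k : ℝ) < |(((x * y * z).natAbs : ℕ) : ℝ) - N|

/-- there is no reduced `S`-solution with at least two exponents `≥ R` for which `max (|x|, |y|, |z|)` differs from `N` by
at most `k` -/
def NoMaximum (S : Finset ℕ) (R k N : ℕ) : Prop :=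
  ∀ (a b c x y z : ℤ) (p q r : ℕ), Reduced S R a b c x y z p q r →
    (k : ℝ) < |((max (max x.natAbs y.natAbs) z.natAbs : ℕ) : ℝ) - N|

open Classical in
/-- from the count in the natural numbers to the count of the engine -/
lemma conv (V : Set ℕ) (h0 : 0 ∉ V) (s C : ℝ) (hC : 0 ≤ C)
    (h : ∀ X : ℕ, 1 ≤ X → (((Ioc 0 X).filter (fun t => t ∈ V)).card : ℝ) ≤ C * (X : ℝ) ^ s) (hs : 0 ≤ s) :
    ∀ ε : ℝ, 0 < ε → ∃ C : ℝ, ∀ X : ℝ, 1 ≤ X → {x | x ∈ V ∧ ((x : ℕ) : ℝ) ≤ X}.Finite ∧
      ({x | x ∈ V ∧ ((x : ℕ) : ℝ) ≤ X}.ncard : ℝ) ≤ C * X ^ (s + ε) := by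
  intro ε hε
  refine ⟨C, fun X hX => ?_⟩
  have hset : {x | x ∈ V ∧ ((x : ℕ) : ℝ) ≤ X} = ↑((Ioc 0 ⌊X⌋₊).filter (fun t => t ∈ V)) := by
    ext x
    rw [mem_coe, mem_filter, mem_Ioc, Set.mem_setOf_eq, Nat.le_floor_iff (by linarith)]
    constructor
    · rintro ⟨h1, h2⟩
      refine ⟨⟨?_, h2⟩, h1⟩
      rcases Nat.eq_zero_or_pos x with h3 | h3
      · exact absurd (h3 ▸ h1) h0
      · exact h3
    · rintro ⟨⟨-, h2⟩, h1⟩
      exact ⟨h1, h2⟩
  rw [hset]
  refine ⟨Finset.finite_toSet _, ?_⟩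
  rw [Set.ncard_coe_finset]
  have hX1 : 1 ≤ ⌊X⌋₊ := Nat.le_floor (by exact_mod_cast hX)
  have hf : ((⌊X⌋₊ : ℕ) : ℝ) ≤ X := Nat.floor_le (by linarith)
  have hf0 : (0 : ℝ) ≤ ((⌊X⌋₊ : ℕ) : ℝ) := Nat.cast_nonneg _
  refine (h ⌊X⌋₊ hX1).trans (mul_le_mul_of_nonneg_left ?_ hC)
  exact (Real.rpow_le_rpow hf0 hf hs).trans (Real.rpow_le_rpow_of_exponent_le hX (by linarith))

/-- **Theorem.** (1) Let `1 / 3 < s < 1`. There are numbers `R_S` such that in the sense of `RandomReals s` (windows of
digits in all bases, and integers near the multiples `α v_k`, for random real numbers `α`, with Hausdorff dimensions and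
measures of the exceptional sets), for all finite sets `S` and all `k` at once, no reduced `S`-solution
`a x ^ p + b y ^ q = c z ^ r` with at least two exponents `≥ R_S` satisfies `||x y z| - N| ≤ k`. (2) Let `0 < s < 1`. There
are numbers `R_S` such that in this sense, for all finite sets `S` with `2 ∉ S` and all `k` at once, no reduced
`S`-solution with at least two exponents `≥ R_S` satisfies `|max (|x|, |y|, |z|) - N| ≤ k`. -/
theorem result :
    (∀ s : ℝ, 1 / 3 < s → s < 1 → ∃ R : Finset ℕ → ℕ,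
      Pool.Agent.Q21.DW.RandomReals s (fun (p : Finset ℕ × ℕ) (N : ℕ) => NoProduct p.1 (R p.1) p.2 N)) ∧
    (∀ s : ℝ, 0 < s → s < 1 → ∃ R : Finset ℕ → ℕ,
      Pool.Agent.Q21.DW.RandomReals s
        (fun (p : {S : Finset ℕ // 2 ∉ S} × ℕ) (N : ℕ) => NoMaximum p.1.1 (R p.1.1) p.2 N)) := by
  classical
  refine ⟨fun s hs hs1 => ?_, fun s hs hs1 => ?_⟩
  · have hall : ∀ S : Finset ℕ, ∃ (R : ℕ), ∀ ε : ℝ, 0 < ε → ∃ C : ℝ, ∀ X : ℝ, 1 ≤ X →
        {x | x ∈ Val S R (fun x y z => x * y * z) ∧ ((x : ℕ) : ℝ) ≤ X}.Finite ∧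
        ({x | x ∈ Val S R (fun x y z => x * y * z) ∧ ((x : ℕ) : ℝ) ≤ X}.ncard : ℝ) ≤ C * X ^ (s + ε) := by
      intro S
      obtain ⟨R, C, hC, h⟩ := AllSolutionsByBases.result.2.2 S (s - 1 / 3) (by linarith)
      refine ⟨R, conv _ ?_ s C hC.le (fun X hX => ?_) (by linarith)⟩
      · rintro ⟨a, b, c, x, y, z, p, q, r, hred, h0⟩
        obtain ⟨⟨-, -, -, -, hx, hy, hz, -⟩, -⟩ := hred
        have h0' : x.natAbs * y.natAbs * z.natAbs = 0 := h0.symm
        rw [mul_eq_zero, mul_eq_zero, Int.natAbs_eq_zero, Int.natAbs_eq_zero, Int.natAbs_eq_zero] at h0'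
        tauto
      · have hX1 : (1 : ℝ) ≤ X := by exact_mod_cast hX
        obtain ⟨h5, h6⟩ := h X hX1
        have h7 := card_val S R (fun x y z => x * y * z) X (ByProduct S R X) h5 (by
          intro a b c x y z p q r hred hle
          refine ⟨a, b, c, x, y, z, p, q, r, hred.1, rfl, hred.2.1, hred.2.2.2.2.2.2, ?_⟩
          have h8 : ((x.natAbs * y.natAbs * z.natAbs : ℕ) : ℝ) ≤ X := by exact_mod_cast hle
          rw [← Int.natAbs_mul, ← Int.natAbs_mul, Nat.cast_natAbs, Int.cast_abs] at h8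
          exact h8)
        have h9 : (((Ioc 0 X).filter (fun t => t ∈ Val S R (fun x y z => x * y * z))).card : ℝ) ≤
            ((ByProduct S R X).ncard : ℝ) := by exact_mod_cast h7
        refine h9.trans (h6.trans (le_of_eq ?_))
        congr 2
        ring
    choose R hR using hall
    refine ⟨R, Pool.Agent.Q158.RR.mono (Pool.Agent.Q158.RR.random
      (fun S : Finset ℕ => Val S (R S) (fun x y z => x * y * z)) (fun _ m => ((m : ℕ) : ℝ)) s
      (by linarith) hs1 hR) id fun p N h => ?_⟩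
    intro a b c x y z p' q r hred
    refine h _ ⟨a, b, c, x, y, z, p', q, r, hred, ?_⟩
    rw [Int.natAbs_mul, Int.natAbs_mul]
  · have hall : ∀ S : Finset ℕ, ∃ (R : ℕ), 2 ∉ S → ∀ ε : ℝ, 0 < ε → ∃ C : ℝ, ∀ X : ℝ, 1 ≤ X →
        {x | x ∈ Val S R (fun x y z => max (max x y) z) ∧ ((x : ℕ) : ℝ) ≤ X}.Finite ∧
        ({x | x ∈ Val S R (fun x y z => max (max x y) z) ∧ ((x : ℕ) : ℝ) ≤ X}.ncard : ℝ) ≤ C * X ^ (s + ε) := by
      intro S
      by_cases h2 : 2 ∉ S
      · obtain ⟨R, C, hC, h⟩ := AllSolutionsByBases.result.2.1 S s h2 hs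
        refine ⟨R, fun _ => conv _ ?_ s C hC.le (fun X hX => ?_) hs.le⟩
        · rintro ⟨a, b, c, x, y, z, p, q, r, hred, h0⟩
          obtain ⟨⟨-, -, -, -, hx, hy, hz, -⟩, -⟩ := hred
          have h0' : max (max x.natAbs y.natAbs) z.natAbs = 0 := h0.symm
          have h1 : z.natAbs ≤ max (max x.natAbs y.natAbs) z.natAbs := le_max_right _ _
          rw [h0', Nat.le_zero, Int.natAbs_eq_zero] at h1
          exact hz h1
        · have hX1 : (1 : ℝ) ≤ X := by exact_mod_cast hX
          obtain ⟨h5, h6⟩ := h X hX1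
          have h7 := card_val S R (fun x y z => max (max x y) z) X (ByBases S R X) h5 (by
            intro a b c x y z p q r hred hle
            have hb : ∀ u : ℤ, u.natAbs ≤ X → |(u : ℝ)| ≤ X := by
              intro u hu
              have h8 : ((u.natAbs : ℕ) : ℝ) ≤ X := by exact_mod_cast hu
              rwa [Nat.cast_natAbs, Int.cast_abs] at h8
            have hle' : max (max x.natAbs y.natAbs) z.natAbs ≤ X := hle
            rw [max_le_iff, max_le_iff] at hle'
            exact ⟨a, b, c, x, y, z, p, q, r, hred.1, rfl, hred.2.1, hred.2.2.2.2.2.2,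
              hb x hle'.1.1, hb y hle'.1.2, hb z hle'.2⟩)
          have h9 : (((Ioc 0 X).filter (fun t => t ∈ Val S R (fun x y z => max (max x y) z))).card : ℝ) ≤
              ((ByBases S R X).ncard : ℝ) := by exact_mod_cast h7
          exact h9.trans h6
      · exact ⟨0, fun h => absurd h h2⟩
    choose R hR using hall
    refine ⟨R, Pool.Agent.Q158.RR.mono (Pool.Agent.Q158.RR.random
      (fun S : {S : Finset ℕ // 2 ∉ S} => Val S.1 (R S.1) (fun x y z => max (max x y) z))
      (fun _ m => ((m : ℕ) : ℝ)) s hs.le hs1 (fun S => hR S.1 S.2)) id fun p N h => ?_⟩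
    intro a b c x y z p' q r hred
    exact h _ ⟨a, b, c, x, y, z, p', q, r, hred, rfl⟩

end Pool.Agent.Results.MP_be1fae_nt.RandomBases
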