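import Pool.Agent.H374R2.CofE

/-!
# The third base of a sum of two powers whose exponents have a common factor

The case `S = ∅`, `a = b = c = 1` of the problem is the equation `x ^ p + y ^ q = z ^ r` of Fermat and Catalan. One
hundred per cent of the positive integers `z` (natural density) have the following property: no power `z ^ r`, `r ≥ 1`,
is a sum `x ^ p + y ^ q` with coprime positive `x`, `y` and with exponents `p`, `q` which have a common factor. The
two other bases `x`, `y` and the three exponents are completely free.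

Let `ℓ` be a prime divisor of `p` and `q`. Then `z ^ r = a ^ ℓ + b ^ ℓ`. For `ℓ = 2` the integer `z` has no prime factor
`≡ 3` modulo `4`. For odd `ℓ` we have `z = D m`, where all primes of `m` are `≡ 1` modulo `ℓ` and `D ^ r` divides
`ℓ (a + b)`, so that `m` is large; the number of such integers is estimated by a sieve with uniformity in `ℓ`. The proof
is in the starting library `Pool/Agent/H374R2` (files `CofA` to `CofE`).
-/

set_option autoImplicit false

namespace Pool.Agent.Results.MP_be1fae_nt.SumsWithCommonFactor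

/-- Some power of `z` is a sum of two coprime positive powers whose exponents have a common factor. -/
def IsThirdBase (z : ℕ) : Prop :=
  ∃ x y p q r : ℕ, 0 < x ∧ 0 < y ∧ 0 < p ∧ 0 < q ∧ 0 < r ∧ Nat.Coprime x y ∧ ¬ Nat.Coprime p q ∧
    x ^ p + y ^ q = z ^ r

/-- The integers `z` with this property have natural density zero. -/
theorem result (ε : ℝ) (hε : 0 < ε) : ∃ N₀ : ℕ, ∀ N : ℕ, N₀ ≤ N →
    ({z : ℕ | 1 ≤ z ∧ z ≤ N ∧ IsThirdBase z}.ncard : ℝ) ≤ ε * N := by
  obtain ⟨N₀, h⟩ := Pool.Agent.H374R2.Cof.natNull_exceptional ε hε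
  refine ⟨N₀, fun N hN => le_trans ?_ (h N hN)⟩
  have hfin : (Pool.Agent.H374R2.Cof.Exceptional ∩ Set.Ioc 0 N).Finite :=
    (Set.finite_Ioc _ _).subset Set.inter_subset_right
  have hsub : {z : ℕ | 1 ≤ z ∧ z ≤ N ∧ IsThirdBase z} ⊆
      Pool.Agent.H374R2.Cof.Exceptional ∩ Set.Ioc 0 N := by
    rintro z ⟨h1, h2, x, y, p, q, r, hx, hy, hp, hq, hr, hxy, hpq, he⟩
    refine ⟨⟨x, y, p, q, r, hx, hy, hp, hq, hr, hxy, ?_, he⟩, by omega, h2⟩
    have : 0 < Nat.gcd p q := Nat.gcd_pos_of_pos_left _ hp
    rcases Nat.lt_or_ge 1 (Nat.gcd p q) with h3 | h3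
    · exact h3
    · exact absurd (show Nat.gcd p q = 1 by omega) hpq
  exact_mod_cast Set.ncard_le_ncard hsub hfin

end Pool.Agent.Results.MP_be1fae_nt.SumsWithCommonFactor
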